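import Pool.Agent.H65.SemiDens

set_option autoImplicit false

theorem Pool.Agent.Results.MP_b831a3_al.Exists.result (r : ℕ) (hr : 2 ≤ r) :
    ∃ s : Finset (FreeGroup (Fin r)),
    Filter.Tendsto (fun n : ℕ =>
      ({w : FreeGroup (Fin r) | w ∈ Subsemigroup.closure (s : Set (FreeGroup (Fin r))) ∧
        w.norm ≤ n}.ncard : ℝ) / ({w : FreeGroup (Fin r) | w.norm ≤ n}.ncard : ℝ))
      Filter.atTop (nhds 0) ∧
    Filter.Tendsto (fun n : ℕ =>
      ({w : FreeGroup (Fin r) | (∃ (φ : MulAut (FreeGroup (Fin r))) (m : FreeGroup (Fin r)),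
        m ∈ Subsemigroup.closure (s : Set (FreeGroup (Fin r))) ∧ w = φ m) ∧
        w.norm ≤ n}.ncard : ℝ) / ({w : FreeGroup (Fin r) | w.norm ≤ n}.ncard : ℝ))
      Filter.atTop (nhds 1) :=
  Pool.Agent.H65.SemiDens.main r hr
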